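import Mathlib

/-!
Cayley curves in the special orthogonal group and vanishing of differentials of class functions.
-/

set_option autoImplicit false

open Matrix

namespace Pool.Agent.H168Z.CV

noncomputable section

variable {ι : Type} [Fintype ι] [DecidableEq ι]

/-- entrywise derivative at zero -/
def HD (c : ℝ → Matrix ι ι ℝ) (D : Matrix ι ι ℝ) : Prop :=
  ∀ i j, HasDerivAt (fun t => c t i j) (D i j) 0

omit [Fintype ι] [DecidableEq ι] in
lemma HD.const (M : Matrix ι ι ℝ) : HD (fun _ => M) 0 := fun _ _ => hasDerivAt_const _ _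

omit [DecidableEq ι] in
lemma HD.mul {c d : ℝ → Matrix ι ι ℝ} {C D : Matrix ι ι ℝ} (hc : HD c C) (hd : HD d D) :
    HD (fun t => c t * d t) (C * d 0 + c 0 * D) := by
  intro i j
  have h := HasDerivAt.fun_sum (u := Finset.univ) fun k _ => (hc i k).mul (hd k j)
  simp only [Matrix.mul_apply, Matrix.add_apply, ← Finset.sum_add_distrib]
  exact h

omit [Fintype ι] [DecidableEq ι] in
lemma HD.transpose {c : ℝ → Matrix ι ι ℝ} {C : Matrix ι ι ℝ} (hc : HD c C) :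
    HD (fun t => (c t)ᵀ) Cᵀ := fun i j => hc j i

omit [DecidableEq ι] in
lemma HD.pi {c : ℝ → Matrix ι ι ℝ} {C : Matrix ι ι ℝ} (hc : HD c C) :
    HasDerivAt (fun t => (fun i j => c t i j : ι → ι → ℝ)) (fun i j => C i j) 0 :=
  hasDerivAt_pi.2 fun i => hasDerivAt_pi.2 fun j => hc i j

/-- the Cayley curve -/
def cay (Y : Matrix ι ι ℝ) (m t : ℝ) : Matrix ι ι ℝ :=
  1 + (2 * t / (1 + m * t ^ 2)) • Y + (2 * t ^ 2 / (1 + m * t ^ 2)) • (Y * Y)

lemma cay_zero (Y : Matrix ι ι ℝ) (m : ℝ) : cay Y m 0 = 1 := by simp [cay]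

lemma cay_HD (Y : Matrix ι ι ℝ) (m : ℝ) : HD (cay Y m) ((2 : ℝ) • Y) := by
  intro i j
  have h0 : HasDerivAt (fun t : ℝ => 1 + m * t ^ 2) 0 0 := by
    simpa using ((hasDerivAt_pow 2 (0 : ℝ)).const_mul m).const_add 1
  have h1 : HasDerivAt (fun t : ℝ => 2 * t / (1 + m * t ^ 2)) 2 0 := by
    have := ((hasDerivAt_id' (0 : ℝ)).const_mul 2).fun_div h0 (by simp)
    simpa using this
  have h2 : HasDerivAt (fun t : ℝ => 2 * t ^ 2 / (1 + m * t ^ 2)) 0 0 := by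
    have := ((hasDerivAt_pow 2 (0 : ℝ)).const_mul 2).fun_div h0 (by simp)
    simpa using this
  have h3 := ((h1.mul_const (Y i j)).const_add ((1 : Matrix ι ι ℝ) i j)).add
    (h2.mul_const ((Y * Y) i j))
  simp only [zero_mul, add_zero] at h3
  exact h3

lemma cay_mul {Y : Matrix ι ι ℝ} {m : ℝ} (hm : 0 ≤ m) (hY : Y * Y * Y = -m • Y) (t : ℝ) :
    cay Y m t * (1 - t • Y) = 1 + t • Y := by
  have h : 1 + m * t ^ 2 ≠ 0 := by positivity
  unfold cay
  simp only [mul_sub, add_mul, mul_one, one_mul, Matrix.mul_smul, Matrix.smul_mul, hY,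
    smul_smul]
  have e1 : 2 * t / (1 + m * t ^ 2) - t - t * (2 * t ^ 2 / (1 + m * t ^ 2) * -m) = t := by
    field_simp; ring
  have e2 : 2 * t ^ 2 / (1 + m * t ^ 2) - t * (2 * t / (1 + m * t ^ 2)) = 0 := by
    field_simp; ring
  calc _ = 1 + (2 * t / (1 + m * t ^ 2) - t - t * (2 * t ^ 2 / (1 + m * t ^ 2) * -m)) • Y +
        (2 * t ^ 2 / (1 + m * t ^ 2) - t * (2 * t / (1 + m * t ^ 2))) • (Y * Y) := by
        simp only [sub_smul]; abel
    _ = _ := by rw [e1, e2, zero_smul, add_zero]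

lemma cay_mem {Y : Matrix ι ι ℝ} {m : ℝ} (hm : 0 ≤ m) (hY : Y * Y * Y = -m • Y) (hT : Yᵀ = -Y)
    (t : ℝ) : cay Y m t ∈ specialOrthogonalGroup ι ℝ := by
  have h1 := cay_mul hm hY t
  have h2 : ((1 / 2 : ℝ) • (cay Y m t + 1)) * (1 - t • Y) = 1 := by
    rw [Matrix.smul_mul, add_mul, h1, one_mul]
    ext i j
    simp only [Matrix.smul_apply, Matrix.add_apply, Matrix.sub_apply, smul_eq_mul]
    ring
  have h3 : (1 - t • Y).det ≠ 0 := det_ne_zero_of_left_inverse h2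
  have h4 : (1 + t • Y)ᵀ = 1 - t • Y := by
    rw [transpose_add, transpose_one, transpose_smul, hT, smul_neg, sub_eq_add_neg]
  have h4' : (1 - t • Y)ᵀ = 1 + t • Y := by rw [← h4, transpose_transpose]
  have h5 : (1 + t • Y).det = (1 - t • Y).det := by rw [← h4, det_transpose]
  rw [mem_specialOrthogonalGroup_iff, mem_orthogonalGroup_iff']
  constructor
  · have hu : IsUnit (1 - t • Y) := (isUnit_iff_isUnit_det _).2 (IsUnit.mk0 _ h3)
    have hu' : IsUnit (1 + t • Y) := (isUnit_iff_isUnit_det _).2 (IsUnit.mk0 _ (h5 ▸ h3))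
    have h6 : (1 + t • Y) * (cay Y m t)ᵀ = 1 - t • Y := by
      rw [← h4', ← transpose_mul, h1, h4]
    have h7 : (1 + t • Y) * ((cay Y m t)ᵀ * cay Y m t) * (1 - t • Y) =
        (1 + t • Y) * 1 * (1 - t • Y) := by
      rw [← mul_assoc, h6, mul_assoc, h1]
      simp only [mul_add, add_mul, mul_sub, sub_mul, mul_one, one_mul]
      abel
    exact hu'.mul_left_cancel (hu.mul_right_cancel h7)
  · have h8 := congrArg det h1
    rw [det_mul, h5] at h8
    exact mul_right_cancel₀ h3 (h8.trans (one_mul _).symm)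

/-- the antisymmetric matrix of a pair of vectors -/
def YY (e p : ι → ℝ) : Matrix ι ι ℝ := vecMulVec e p - vecMulVec p e

omit [Fintype ι] [DecidableEq ι] in
lemma YY_T (e p : ι → ℝ) : (YY e p)ᵀ = -YY e p := by
  simp [YY]

omit [DecidableEq ι] in
lemma YY_cube {e p : ι → ℝ} (he : e ⬝ᵥ e = 1) (hp : p ⬝ᵥ e = 0) :
    YY e p * YY e p * YY e p = -(p ⬝ᵥ p) • YY e p := by
  have hp' : e ⬝ᵥ p = 0 := by rw [dotProduct_comm, hp]
  simp only [YY, mul_sub, sub_mul, vecMulVec_mul_vecMulVec, he, hp, hp', zero_smul, one_smul,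
    vecMulVec_zero, smul_dotProduct, smul_eq_mul, mul_zero, mul_one, zero_mul]
  ext i j
  simp only [Matrix.sub_apply, Matrix.smul_apply, vecMulVec_apply, Pi.smul_apply, smul_eq_mul, Matrix.zero_apply]
  ring

omit [DecidableEq ι] in
lemma conj_vec (g : Matrix ι ι ℝ) (a b : ι → ℝ) :
    g * vecMulVec a b * gᵀ = vecMulVec (g *ᵥ a) (g *ᵥ b) := by
  rw [mul_vecMulVec, vecMulVec_mul, vecMul_transpose]

omit [DecidableEq ι] in
lemma conj_YY (g : Matrix ι ι ℝ) (e p : ι → ℝ) :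
    g * YY e p * gᵀ = YY (g *ᵥ e) (g *ᵥ p) := by
  simp only [YY, mul_sub, sub_mul, conj_vec]

omit [Fintype ι] [DecidableEq ι] in
lemma YY_add (e p q : ι → ℝ) : YY e (p + q) = YY e p + YY e q := by
  ext i j
  simp only [YY, Matrix.sub_apply, Matrix.add_apply, vecMulVec_apply, Pi.add_apply]
  ring

omit [Fintype ι] [DecidableEq ι] in
lemma YY_smul (e p : ι → ℝ) (c : ℝ) : YY e (c • p) = c • YY e p := by
  ext i j
  simp only [YY, Matrix.sub_apply, Matrix.smul_apply, vecMulVec_apply, Pi.smul_apply, smul_eq_mul]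
  ring

omit [Fintype ι] [DecidableEq ι] in
lemma YY_neg_left (e p : ι → ℝ) : YY (-e) p = -YY e p := by
  ext i j
  simp only [YY, Matrix.sub_apply, Matrix.neg_apply, vecMulVec_apply, Pi.neg_apply]
  ring

/-- reflection -/
def rf (n : ι → ℝ) : Matrix ι ι ℝ := 1 - (2 / (n ⬝ᵥ n)) • vecMulVec n n

lemma rf_T (n : ι → ℝ) : (rf n)ᵀ = rf n := by simp [rf]

lemma rf_mulVec (n v : ι → ℝ) : rf n *ᵥ v = v - (2 / (n ⬝ᵥ n) * (n ⬝ᵥ v)) • n := by
  rw [rf, sub_mulVec, one_mulVec, smul_mulVec, vecMulVec_mulVec]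
  ext i
  simp only [Pi.sub_apply, Pi.smul_apply, smul_eq_mul, MulOpposite.smul_eq_mul_unop,
    MulOpposite.unop_op]
  ring

lemma rf_sq {n : ι → ℝ} (hn : n ⬝ᵥ n ≠ 0) : rf n * rf n = 1 := by
  simp only [rf, mul_sub, sub_mul, mul_one, one_mul, Matrix.mul_smul, Matrix.smul_mul,
    vecMulVec_mul_vecMulVec]
  ext i j
  simp only [Matrix.sub_apply, Matrix.smul_apply, vecMulVec_apply, Pi.smul_apply, smul_eq_mul]
  field_simp
  ring

lemma rf_det {n : ι → ℝ} (hn : n ⬝ᵥ n ≠ 0) : (rf n).det = -1 := by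
  have e : rf n = 1 + replicateCol Unit (-(2 / (n ⬝ᵥ n)) • n) * replicateRow Unit n := by
    rw [← vecMulVec_eq, rf]
    ext i j
    simp only [Matrix.sub_apply, Matrix.add_apply, Matrix.smul_apply, vecMulVec_apply, Pi.smul_apply, smul_eq_mul]
    ring
  rw [e, det_one_add_replicateCol_mul_replicateRow, dotProduct_smul, smul_eq_mul]
  field_simp
  ring

lemma rf_comm {g : Matrix ι ι ℝ} (hg : gᵀ * g = 1) {n : ι → ℝ} {δ : ℝ} (hδ : δ * δ = 1)
    (hn : g *ᵥ n = δ • n) : g * rf n = rf n * g := by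
  have hg' : g * gᵀ = 1 := mul_eq_one_comm.1 hg
  have h : g * rf n * gᵀ = rf n := by
    rw [rf, mul_sub, sub_mul, mul_one, hg', Matrix.mul_smul, Matrix.smul_mul, conj_vec, hn]
    congr 2
    ext i j
    simp only [vecMulVec_apply, Pi.smul_apply, smul_eq_mul]
    linear_combination (n i * n j) * hδ
  calc g * rf n = g * rf n * (gᵀ * g) := by rw [hg, mul_one]
    _ = rf n * g := by rw [← mul_assoc, h]

lemma cay_conj {c Y : Matrix ι ι ℝ} (hc : cᵀ * c = 1) (m t : ℝ) :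
    c * cay Y m t * cᵀ = cay (c * Y * cᵀ) m t := by
  have hc' : c * cᵀ = 1 := mul_eq_one_comm.1 hc
  have e : c * Y * cᵀ * (c * Y * cᵀ) = c * (Y * Y) * cᵀ := by
    calc c * Y * cᵀ * (c * Y * cᵀ) = c * Y * (cᵀ * c) * Y * cᵀ := by simp only [mul_assoc]
      _ = _ := by rw [hc]; simp only [mul_assoc, one_mul]
  unfold cay
  rw [e]
  simp only [mul_add, add_mul, mul_one, hc', Matrix.mul_smul, Matrix.smul_mul]

/-- the matrix of a group element as a function -/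
def mat (g : specialOrthogonalGroup ι ℝ) : ι → ι → ℝ := fun i j => g.1 i j

lemma chain {f : (ι → ι → ℝ) → ℝ} {g : specialOrthogonalGroup ι ℝ} {L : (ι → ι → ℝ) →L[ℝ] ℝ}
    (hL : HasFDerivWithinAt f L (Set.range mat) (mat g)) {c : ℝ → specialOrthogonalGroup ι ℝ}
    (h0 : c 0 = g) {D : Matrix ι ι ℝ} (hc : HD (fun t => (c t).1) D) :
    HasDerivAt (fun t => f (mat (c t))) (L fun i j => D i j) 0 := by
  subst h0
  exact hL.comp_hasDerivAt 0 hc.pi (Filter.Eventually.of_forall fun t => Set.mem_range_self (c t))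

lemma kill {f : (ι → ι → ℝ) → ℝ}
    (hf : ∀ g h : specialOrthogonalGroup ι ℝ, f (mat (h * g * h⁻¹)) = f (mat g))
    {g : specialOrthogonalGroup ι ℝ} {L : (ι → ι → ℝ) →L[ℝ] ℝ}
    (hL : HasFDerivWithinAt f L (Set.range mat) (mat g)) {e n p : ι → ℝ} {δ : ℝ}
    (he : e ⬝ᵥ e = 1) (hge : g.1 *ᵥ e = e) (hδ : δ * δ = 1) (hgn : g.1 *ᵥ n = δ • n)
    (hn : n ⬝ᵥ n ≠ 0) (hne : n ⬝ᵥ e = 0) (hpe : p ⬝ᵥ e = 0) (hpn : n ⬝ᵥ p = 0) :
    L (fun i j => (g.1 * YY e p) i j) = 0 := by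
  have he0 : e ⬝ᵥ e ≠ 0 := by rw [he]; exact one_ne_zero
  have hm : 0 ≤ p ⬝ᵥ p := Finset.sum_nonneg fun i _ => mul_self_nonneg _
  have hg : g.1ᵀ * g.1 = 1 :=
    (mem_orthogonalGroup_iff' ι ℝ).1 (mem_specialOrthogonalGroup_iff.1 g.2).1
  have hcT : (rf n * rf e)ᵀ * (rf n * rf e) = 1 := by
    rw [transpose_mul, rf_T, rf_T, mul_assoc, ← mul_assoc (rf n), rf_sq hn, one_mul, rf_sq he0]
  let c : specialOrthogonalGroup ι ℝ := ⟨rf n * rf e, by
    rw [mem_specialOrthogonalGroup_iff, mem_orthogonalGroup_iff', det_mul, rf_det hn, rf_det he0]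
    exact ⟨hcT, by norm_num⟩⟩
  have hcg : c.1 * g.1 = g.1 * c.1 := by
    show rf n * rf e * g.1 = g.1 * (rf n * rf e)
    rw [mul_assoc, ← rf_comm hg (one_mul 1) (hge.trans (one_smul _ _).symm), ← mul_assoc,
      ← rf_comm hg hδ hgn, mul_assoc]
  have hcY : c.1 * YY e p * c.1ᵀ = -YY e p := by
    have a1 : c.1 *ᵥ e = -e := by
      show (rf n * rf e) *ᵥ e = -e
      rw [← mulVec_mulVec, rf_mulVec e e, he, rf_mulVec]
      simp only [dotProduct_sub, dotProduct_smul, hne]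
      ext i
      simp
      ring
    have a2 : c.1 *ᵥ p = p := by
      show (rf n * rf e) *ᵥ p = p
      rw [← mulVec_mulVec, rf_mulVec e p, dotProduct_comm e p, hpe, mul_zero, zero_smul, sub_zero,
        rf_mulVec, hpn, mul_zero, zero_smul, sub_zero]
    rw [conj_YY, a1, a2, YY_neg_left]
  have hY3 := YY_cube he hpe
  have hY3' : -YY e p * -YY e p * -YY e p = -(p ⬝ᵥ p) • -YY e p := by
    rw [neg_mul_neg, mul_neg, hY3, smul_neg]
  let k1 : ℝ → specialOrthogonalGroup ι ℝ := fun t =>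
    g * ⟨cay (YY e p) (p ⬝ᵥ p) t, cay_mem hm hY3 (YY_T e p) t⟩
  let k2 : ℝ → specialOrthogonalGroup ι ℝ := fun t =>
    g * ⟨cay (-YY e p) (p ⬝ᵥ p) t, cay_mem hm hY3' (by rw [transpose_neg, YY_T]) t⟩
  have hk : ∀ t, k2 t = c * k1 t * c⁻¹ := by
    intro t
    apply Subtype.ext
    show g.1 * cay (-YY e p) (p ⬝ᵥ p) t = c.1 * (g.1 * cay (YY e p) (p ⬝ᵥ p) t) * c.1ᵀ
    rw [← hcY, ← cay_conj (c := c.1) hcT, ← mul_assoc c.1, hcg]
    simp only [mul_assoc]
  have hh : ∀ Z : Matrix ι ι ℝ, HD (fun t => g.1 * cay Z (p ⬝ᵥ p) t) ((2 : ℝ) • (g.1 * Z)) := by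
    intro Z
    have := (HD.const g.1).mul (cay_HD Z (p ⬝ᵥ p))
    rwa [zero_mul, zero_add, Matrix.mul_smul] at this
  have d1 := chain hL (c := k1) (Subtype.ext (by simp [k1, cay_zero])) (hh _)
  have d2 := chain hL (c := k2) (Subtype.ext (by simp [k2, cay_zero])) (hh _)
  simp only [hk, hf] at d2
  have d3 := d1.unique d2
  have e1 : (fun i j => ((2 : ℝ) • (g.1 * YY e p)) i j) =
      (2 : ℝ) • fun i j => (g.1 * YY e p) i j := by
    ext i j
    simp
  have e2 : (fun i j => ((2 : ℝ) • (g.1 * -YY e p)) i j) =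
      (-2 : ℝ) • fun i j => (g.1 * YY e p) i j := by
    ext i j
    simp
  rw [e1, e2, map_smul, map_smul, smul_eq_mul, smul_eq_mul] at d3
  linarith

lemma kill2 {f : (ι → ι → ℝ) → ℝ}
    (hf : ∀ g h : specialOrthogonalGroup ι ℝ, f (mat (h * g * h⁻¹)) = f (mat g))
    {g : specialOrthogonalGroup ι ℝ} {L : (ι → ι → ℝ) →L[ℝ] ℝ}
    (hL : HasFDerivWithinAt f L (Set.range mat) (mat g)) {e n m p : ι → ℝ} {δ η : ℝ}
    (he : e ⬝ᵥ e = 1) (hge : g.1 *ᵥ e = e) (hδ : δ * δ = 1) (hgn : g.1 *ᵥ n = δ • n)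
    (hη : η * η = 1) (hgm : g.1 *ᵥ m = η • m)
    (hn : n ⬝ᵥ n ≠ 0) (hne : n ⬝ᵥ e = 0) (hm : m ⬝ᵥ m ≠ 0) (hme : m ⬝ᵥ e = 0)
    (hmn : m ⬝ᵥ n = 0) (hpe : p ⬝ᵥ e = 0) :
    L (fun i j => (g.1 * YY e p) i j) = 0 := by
  set a : ℝ := n ⬝ᵥ p / (n ⬝ᵥ n) with ha
  have h1 := kill hf hL (p := p - a • n) he hge hδ hgn hn hne
    (by rw [sub_dotProduct, smul_dotProduct, hpe, hne]; simp)
    (by rw [dotProduct_sub, dotProduct_smul, ha, smul_eq_mul, div_mul_cancel₀ _ hn, sub_self])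
  have h2 := kill hf hL (p := a • n) he hge hη hgm hm hme
    (by rw [smul_dotProduct, hne]; simp) (by rw [dotProduct_smul, hmn]; simp)
  have e1 : (fun i j => (g.1 * YY e p) i j) =
      (fun i j => (g.1 * YY e (p - a • n)) i j) + fun i j => (g.1 * YY e (a • n)) i j := by
    ext i j
    simp only [Pi.add_apply]
    rw [← Matrix.add_apply, ← mul_add, ← YY_add, sub_add_cancel]
  rw [e1, map_add, h1, h2, add_zero]

end

end Pool.Agent.H168Z.CV
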