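import Mathlib
import Pool.Agent.H168Z.CV.A

/-!
A monomial subgroup of `SO(10)` and a path of surface group representations.
-/

set_option autoImplicit false

open Matrix

namespace Pool.Agent.H168Z.CV

noncomputable section

/-- an index set with ten elements -/
abbrev Ix : Type := Option (Fin 3 × Fin 3)

/-- translation -/
def sh (a : Fin 3 × Fin 3) (x : Ix) : Ix := x.map (· + a)

/-- signed translation matrices -/
def mono (a : Fin 3 × Fin 3) (ε : Ix → ℝ) : Matrix Ix Ix ℝ :=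
  Matrix.of fun x y => if x = sh a y then ε y else 0

lemma sh_sh : ∀ (a b : Fin 3 × Fin 3) (x : Ix), sh a (sh b x) = sh (a + b) x := by decide

lemma sh_three : ∀ (a : Fin 3 × Fin 3) (x : Ix), sh a (sh a (sh a x)) = x := by decide

lemma sh_zero : ∀ x : Ix, sh 0 x = x := by decide

lemma sh_neg : ∀ (a : Fin 3 × Fin 3) (x y : Ix), y = sh a x ↔ x = sh (-a) y := by decide

lemma sh_none (a : Fin 3 × Fin 3) : sh a none = none := rfl

lemma mono_mul (a b : Fin 3 × Fin 3) (ε η : Ix → ℝ) :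
    mono a ε * mono b η = mono (a + b) fun y => ε (sh b y) * η y := by
  ext x y
  simp only [mono, mul_apply, of_apply]
  rw [Finset.sum_eq_single (sh b y) (fun z _ hz => by simp [hz]) (by simp)]
  simp [sh_sh]

lemma mono_T (a : Fin 3 × Fin 3) (ε : Ix → ℝ) :
    (mono a ε)ᵀ = mono (-a) fun y => ε (sh (-a) y) := by
  ext x y
  simp only [mono, transpose_apply, of_apply, sh_neg a x y]
  split_ifs with h
  · rw [h]
  · rfl

lemma mono_one : mono 0 (fun _ => 1) = 1 := by
  ext x y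
  simp [mono, sh_zero, one_apply]

lemma mono_single (a : Fin 3 × Fin 3) (ε : Ix → ℝ) (x : Ix) (c : ℝ) :
    mono a ε *ᵥ Pi.single x c = Pi.single (sh a x) (ε x * c) := by
  ext y
  rw [mulVec_single]
  simp only [mono, Pi.single_apply]
  split_ifs with h <;> simp [h, mul_comm]

/-- the basis vector of the extra coordinate -/
def ee : Ix → ℝ := Pi.single none 1

lemma ee_ee : ee ⬝ᵥ ee = 1 := by simp [ee]

lemma dot_ee (p : Ix → ℝ) : p ⬝ᵥ ee = p none := by simp [ee]

/-- membership in the finite monomial group -/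
def InH (g : Matrix Ix Ix ℝ) : Prop :=
  ∃ (a : Fin 3 × Fin 3) (ε : Ix → ℝ), (∀ x, ε x * ε x = 1) ∧ ε none = 1 ∧ g = mono a ε

lemma InH.one : InH 1 := ⟨0, fun _ => 1, fun _ => one_mul 1, rfl, mono_one.symm⟩

lemma InH.mul {g h : Matrix Ix Ix ℝ} (hg : InH g) (hh : InH h) : InH (g * h) := by
  obtain ⟨a, ε, h1, h2, rfl⟩ := hg
  obtain ⟨b, η, h3, h4, rfl⟩ := hh
  refine ⟨a + b, _, fun x => ?_, ?_, mono_mul a b ε η⟩
  · linear_combination (η x * η x) * h1 (sh b x) + h3 x
  · rw [sh_none, h2, h4, one_mul]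

lemma InH.T {g : Matrix Ix Ix ℝ} (hg : InH g) : InH gᵀ := by
  obtain ⟨a, ε, h1, h2, rfl⟩ := hg
  exact ⟨-a, fun y => ε (sh (-a) y), fun x => h1 _, h2, mono_T a ε⟩

lemma InH.ee {g : Matrix Ix Ix ℝ} (hg : InH g) : g *ᵥ ee = ee := by
  obtain ⟨a, ε, -, h2, rfl⟩ := hg
  rw [CV.ee, mono_single, sh_none, h2, one_mul]

lemma InH.perp {g : Matrix Ix Ix ℝ} (hg : InH g) {p : Ix → ℝ} (hp : p ⬝ᵥ CV.ee = 0) :
    (g *ᵥ p) ⬝ᵥ CV.ee = 0 := by
  rw [dotProduct_comm, dotProduct_mulVec, ← mulVec_transpose, hg.T.ee, dotProduct_comm, hp]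

lemma eig (a : Fin 3 × Fin 3) {ε : Ix → ℝ} (hε : ∀ x, ε x * ε x = 1) (x : Ix) :
    ∃ (n : Ix → ℝ) (δ : ℝ), δ * δ = 1 ∧ mono a ε *ᵥ n = δ • n ∧ n ⬝ᵥ n ≠ 0 ∧
      ∀ y, y ≠ x → y ≠ sh a x → y ≠ sh a (sh a x) → n y = 0 := by
  set δ := ε (sh a (sh a x)) * (ε (sh a x) * ε x) with hδ
  have hδ2 : δ * δ = 1 := by
    rw [hδ]
    linear_combination (ε (sh a x) * ε x) ^ 2 * hε (sh a (sh a x)) + ε x ^ 2 * hε (sh a x) + hε x
  refine ⟨Pi.single x 1 + Pi.single (sh a x) (δ * ε x) +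
    Pi.single (sh a (sh a x)) (ε (sh a x) * ε x), δ, hδ2, ?_, ?_, fun y h1 h2 h3 => ?_⟩
  · rw [mulVec_add, mulVec_add, mono_single, mono_single, mono_single, sh_three, ← hδ, smul_add,
      smul_add, ← Pi.single_smul, ← Pi.single_smul, ← Pi.single_smul]
    simp only [smul_eq_mul, mul_one, ← mul_assoc δ δ, hδ2, one_mul, mul_left_comm δ]
    abel
  · intro h0
    have h1 := congrFun (dotProduct_self_eq_zero.1 h0) x
    by_cases h : sh a x = x
    · simp only [h, Pi.add_apply, Pi.single_eq_same, Pi.zero_apply] at h1 hδ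
      have h2 := hε x
      rw [h2, mul_one] at hδ
      rw [hδ, h2] at h1
      norm_num at h1
    · have h' : sh a (sh a x) ≠ x := fun e => h (by
        have := sh_three a x
        rwa [e] at this)
      simp [Ne.symm h, Ne.symm h'] at h1
  · simp [h1, h2, h3]

lemma two_orbits : ∀ a : Fin 3 × Fin 3, ∃ b : Fin 3 × Fin 3, ∀ y : Ix,
    (y ≠ some b ∧ y ≠ sh a (some b) ∧ y ≠ sh a (sh a (some b))) ∨
    (y ≠ some 0 ∧ y ≠ sh a (some 0) ∧ y ≠ sh a (sh a (some 0))) := by decide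

lemma kill3 {f : (Ix → Ix → ℝ) → ℝ}
    (hf : ∀ g h : specialOrthogonalGroup Ix ℝ, f (mat (h * g * h⁻¹)) = f (mat g))
    {g : specialOrthogonalGroup Ix ℝ} {L : (Ix → Ix → ℝ) →L[ℝ] ℝ}
    (hL : HasFDerivWithinAt f L (Set.range mat) (mat g)) (hg : InH g.1) {p : Ix → ℝ}
    (hp : p ⬝ᵥ ee = 0) : L (fun i j => (g.1 * YY ee p) i j) = 0 := by
  have hge := hg.ee
  obtain ⟨a, ε, h1, -, h3⟩ := hg
  obtain ⟨b, hb⟩ := two_orbits a
  obtain ⟨n, δ, hδ, hn1, hn2, hn3⟩ := eig a h1 (some 0)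
  obtain ⟨m, η, hη, hm1, hm2, hm3⟩ := eig a h1 (some b)
  rw [← h3] at hn1 hm1
  refine kill2 hf hL ee_ee hge hδ hn1 hη hm1 hn2 ?_ hm2 ?_ ?_ hp
  · rw [dot_ee]; exact hn3 _ (by simp) (by simp [sh]) (by simp [sh])
  · rw [dot_ee]; exact hm3 _ (by simp) (by simp [sh]) (by simp [sh])
  · refine Finset.sum_eq_zero fun y _ => ?_
    rcases hb y with h | h
    · rw [hm3 y h.1 h.2.1 h.2.2, zero_mul]
    · rw [hn3 y h.1 h.2.1 h.2.2, mul_zero]

/-- signs depending on the first coordinate -/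
def s1 : Ix → ℝ
  | none => 1
  | some x => if x.1 = 0 then 1 else -1

/-- signs depending on the second coordinate -/
def s2 : Ix → ℝ
  | none => 1
  | some x => if x.2 = 0 then 1 else -1

lemma s1_sq (x : Ix) : s1 x * s1 x = 1 := by
  cases x with
  | none => simp [s1]
  | some x => simp only [s1]; split_ifs <;> simp

lemma s2_sq (x : Ix) : s2 x * s2 x = 1 := by
  cases x with
  | none => simp [s2]
  | some x => simp only [s2]; split_ifs <;> simp

lemma mono_orth (a : Fin 3 × Fin 3) {ε : Ix → ℝ} (hε : ∀ x, ε x * ε x = 1) :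
    (mono a ε)ᵀ * mono a ε = 1 := by
  rw [mono_T, mono_mul, neg_add_cancel, ← mono_one]
  congr 1
  funext y
  rw [sh_sh, neg_add_cancel, sh_zero, hε]

lemma det_of_cube {g : Matrix Ix Ix ℝ} (h : g * g * g = 1) : g.det = 1 := by
  have h1 := congrArg det h
  rw [det_mul, det_mul, det_one] at h1
  have h2 : (g.det - 1) * (g.det ^ 2 + g.det + 1) = 0 := by linear_combination h1
  rcases mul_eq_zero.1 h2 with h3 | h3
  · linarith
  · nlinarith [sq_nonneg (g.det + 1 / 2)]

lemma mono_diag (ε : Ix → ℝ) : mono 0 ε = diagonal ε := by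
  ext x y
  simp only [mono, of_apply, sh_zero, diagonal_apply]
  split_ifs with h
  · rw [h]
  · rfl

/-- translation matrices -/
def tr (a : Fin 3 × Fin 3) : specialOrthogonalGroup Ix ℝ :=
  ⟨mono a fun _ => 1, by
    rw [mem_specialOrthogonalGroup_iff, mem_orthogonalGroup_iff']
    refine ⟨mono_orth a fun _ => one_mul 1, det_of_cube ?_⟩
    have : a + a + a = 0 := by revert a; decide
    rw [mono_mul, mono_mul, this, ← mono_one]
    simp⟩

/-- the first sign matrix -/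
def d1 : specialOrthogonalGroup Ix ℝ :=
  ⟨mono 0 s1, by
    rw [mem_specialOrthogonalGroup_iff, mem_orthogonalGroup_iff']
    refine ⟨mono_orth 0 s1_sq, ?_⟩
    rw [mono_diag, det_diagonal]
    simp [Fintype.prod_option, Fintype.prod_prod_type, Fin.prod_univ_three, s1]⟩

/-- the second sign matrix -/
def d2 : specialOrthogonalGroup Ix ℝ :=
  ⟨mono 0 s2, by
    rw [mem_specialOrthogonalGroup_iff, mem_orthogonalGroup_iff']
    refine ⟨mono_orth 0 s2_sq, ?_⟩
    rw [mono_diag, det_diagonal]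
    simp [Fintype.prod_option, Fintype.prod_prod_type, Fin.prod_univ_three, s2]⟩

/-- the fixed vector -/
def vv : Ix → ℝ := Pi.single (some (0, 0)) 1 + Pi.single (some (1, 0)) 1 + Pi.single (some (2, 0)) 1

lemma vv_ee : vv ⬝ᵥ ee = 0 := by rw [dot_ee]; simp [vv]

/-- the rotation -/
def rot (t : ℝ) : specialOrthogonalGroup Ix ℝ :=
  ⟨cay (YY ee vv) (vv ⬝ᵥ vv) t, cay_mem (Finset.sum_nonneg fun _ _ => mul_self_nonneg _)
    (YY_cube ee_ee vv_ee) (YY_T _ _) t⟩

lemma comm1 (t : ℝ) : Commute (tr (1, 0)) (rot t * d2) := by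
  refine Commute.mul_right ?_ ?_
  · have h1 : (tr (1, 0)).1ᵀ * (tr (1, 0)).1 = 1 := mono_orth _ fun _ => one_mul 1
    have h2 : (tr (1, 0)).1 *ᵥ vv = vv := by
      show mono _ _ *ᵥ vv = vv
      rw [vv, mulVec_add, mulVec_add, mono_single, mono_single, mono_single]
      have a1 : sh (1, 0) (some (0, 0)) = some (1, 0) := by decide
      have a2 : sh (1, 0) (some (1, 0)) = some (2, 0) := by decide
      have a3 : sh (1, 0) (some (2, 0)) = some (0, 0) := by decide
      rw [a1, a2, a3, one_mul]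
      abel
    have h3 : (tr (1, 0)).1 *ᵥ ee = ee := InH.ee ⟨_, _, fun _ => one_mul 1, rfl, rfl⟩
    have h4 := cay_conj (Y := YY ee vv) h1 (vv ⬝ᵥ vv) t
    rw [conj_YY, h2, h3] at h4
    apply Subtype.ext
    show (tr (1, 0)).1 * cay _ _ t = cay _ _ t * (tr (1, 0)).1
    conv_rhs => rw [← h4]
    rw [mul_assoc, h1, mul_one]
  · apply Subtype.ext
    show mono _ _ * mono _ _ = mono _ _ * mono _ _
    rw [mono_mul, mono_mul, add_comm]
    congr 1
    funext y
    cases y with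
    | none => simp [sh, s2]
    | some y => simp [sh, s2]

lemma comm2 : Commute (tr (0, 1)) d1 := by
  apply Subtype.ext
  show mono _ _ * mono _ _ = mono _ _ * mono _ _
  rw [mono_mul, mono_mul, add_comm]
  congr 1
  funext y
  cases y with
  | none => simp [sh, s1]
  | some y => simp [sh, s1]

/-- images of the generators -/
def gn (k : ℕ) (t : ℝ) (x : Fin k × Bool) : specialOrthogonalGroup Ix ℝ :=
  if x.1.1 = 0 then (if x.2 then rot t * d2 else tr (1, 0))
  else if x.1.1 = 1 then (if x.2 then d1 else tr (0, 1)) else 1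

lemma gn_comm (k : ℕ) (t : ℝ) (i : Fin k) : Commute (gn k t (i, false)) (gn k t (i, true)) := by
  unfold gn
  split_ifs <;> simp_all [comm1, comm2]

/-- the property propagated along the group -/
def Nice (c : ℝ → specialOrthogonalGroup Ix ℝ) : Prop :=
  InH (c 0).1 ∧ ∃ p : Ix → ℝ, p ⬝ᵥ ee = 0 ∧ HD (fun t => (c t).1) ((c 0).1 * YY ee p)

lemma so_orth (g : specialOrthogonalGroup Ix ℝ) : g.1ᵀ * g.1 = 1 :=
  (mem_orthogonalGroup_iff' Ix ℝ).1 (mem_specialOrthogonalGroup_iff.1 g.2).1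

lemma YY_zero : YY ee 0 = 0 := by simp [YY]

lemma Nice.const {g : specialOrthogonalGroup Ix ℝ} (hg : InH g.1) : Nice fun _ => g :=
  ⟨hg, 0, by simp, by rw [YY_zero, mul_zero]; exact HD.const _⟩

lemma Nice.mul {c d : ℝ → specialOrthogonalGroup Ix ℝ} (hc : Nice c) (hd : Nice d) :
    Nice fun t => c t * d t := by
  obtain ⟨h1, p, hp, h2⟩ := hc
  obtain ⟨h3, q, hq, h4⟩ := hd
  refine ⟨h1.mul h3, (d 0).1ᵀ *ᵥ p + q, by rw [add_dotProduct, h3.T.perp hp, hq, add_zero], ?_⟩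
  have h5 := h2.mul h4
  have h6 := conj_YY (d 0).1ᵀ ee p
  rw [h3.T.ee, transpose_transpose] at h6
  have h7 : (d 0).1 * (d 0).1ᵀ = 1 := mul_eq_one_comm.1 (so_orth _)
  have e : (c 0 * d 0).1 * YY ee ((d 0).1ᵀ *ᵥ p + q) =
      (c 0).1 * YY ee p * (d 0).1 + (c 0).1 * ((d 0).1 * YY ee q) := by
    show (c 0).1 * (d 0).1 * _ = _
    rw [YY_add, ← h6, mul_add]
    congr 1
    · calc (c 0).1 * (d 0).1 * ((d 0).1ᵀ * YY ee p * (d 0).1)
          = (c 0).1 * ((d 0).1 * (d 0).1ᵀ) * YY ee p * (d 0).1 := by simp only [mul_assoc]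
        _ = _ := by rw [h7, mul_one]
    · rw [mul_assoc]
  show HD _ ((c 0 * d 0).1 * _)
  rw [e]
  exact h5

lemma Nice.inv {c : ℝ → specialOrthogonalGroup Ix ℝ} (hc : Nice c) : Nice fun t => (c t)⁻¹ := by
  obtain ⟨h1, p, hp, h2⟩ := hc
  refine ⟨h1.T, (-1 : ℝ) • ((c 0).1 *ᵥ p), by rw [smul_dotProduct, h1.perp hp, smul_zero], ?_⟩
  have h5 := h2.transpose
  have h6 := conj_YY (c 0).1 ee p
  rw [h1.ee] at h6
  have e : (c 0).1ᵀ * YY ee ((-1 : ℝ) • ((c 0).1 *ᵥ p)) = ((c 0).1 * YY ee p)ᵀ := by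
    rw [YY_smul, ← h6, transpose_mul, YY_T, Matrix.mul_smul, ← mul_assoc, ← mul_assoc, so_orth]
    simp
  show HD (fun t => (c t).1ᵀ) ((c 0).1ᵀ * _)
  rw [e]
  exact h5

lemma rot_nice : Nice rot := by
  have h0 : (rot 0).1 = 1 := cay_zero _ _
  refine ⟨h0 ▸ InH.one, (2 : ℝ) • vv, by rw [smul_dotProduct, vv_ee, smul_zero], ?_⟩
  rw [h0, one_mul, YY_smul]
  exact cay_HD _ _

lemma gn_nice (k : ℕ) (x : Fin k × Bool) : Nice fun t => gn k t x := by
  unfold gn
  split_ifs
  · exact rot_nice.mul (Nice.const ⟨_, _, s2_sq, rfl, rfl⟩)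
  · exact Nice.const ⟨_, _, fun _ => one_mul 1, rfl, rfl⟩
  · exact Nice.const ⟨_, _, s1_sq, rfl, rfl⟩
  · exact Nice.const ⟨_, _, fun _ => one_mul 1, rfl, rfl⟩
  · exact Nice.const InH.one

/-- first test function -/
def b1 : Ix → Bool
  | none => true
  | some x => decide (x.1 = 0)

/-- second test function -/
def b2 : Ix → Bool
  | none => true
  | some x => decide (x.2 = 0)

lemma separate : ∀ x y : Ix, x ≠ y → ∃ a, b1 (sh a x) ≠ b1 (sh a y) ∨ b2 (sh a x) ≠ b2 (sh a y) := by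
  decide

lemma all_shifts : ∀ a : Fin 3 × Fin 3, a = (1, 0) ∨ a = (1, 0) + (1, 0) ∨
    a = (1, 0) + ((1, 0) + (1, 0)) ∨ a = (0, 1) ∨ a = (0, 1) + (0, 1) ∨ a = (1, 0) + (0, 1) ∨
    a = (1, 0) + ((0, 1) + (0, 1)) ∨ a = ((1, 0) + (1, 0)) + (0, 1) ∨
    a = ((1, 0) + (1, 0)) + ((0, 1) + (0, 1)) := by decide

lemma central {M : Matrix Ix Ix ℂ} (h1 : M * Mᵀ = 1) (h2 : M.det = 1)
    (ha : M * (tr (1, 0)).1.map (↑) = (tr (1, 0)).1.map (↑) * M)
    (hb : M * (tr (0, 1)).1.map (↑) = (tr (0, 1)).1.map (↑) * M)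
    (hc : M * d1.1.map (↑) = d1.1.map (↑) * M) (hd : M * d2.1.map (↑) = d2.1.map (↑) * M) :
    M = 1 ∨ M = -1 := by
  have key : ∀ (a : Fin 3 × Fin 3) (ε : Ix → ℝ),
      M * (mono a ε).map (↑) = (mono a ε).map (↑) * M →
      ∀ x y, M (sh a x) (sh a y) * ε y = ε x * M x y := by
    intro a ε h x y
    have := congrFun (congrFun h (sh a x)) y
    simp only [mul_apply, map_apply, mono, of_apply] at this
    rw [Finset.sum_eq_single (sh a y) (fun z _ hz => by simp [hz]) (by simp),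
      Finset.sum_eq_single x (fun z _ hz => by
        have : ¬ sh a x = sh a z := fun e => hz (by
          have := congrArg (fun w => sh a (sh a w)) e
          simpa only [sh_three] using this.symm)
        simp [this]) (by simp)] at this
    simpa using this
  have ka : ∀ x y, M (sh (1, 0) x) (sh (1, 0) y) = M x y := fun x y => by
    simpa using key _ _ ha x y
  have kb : ∀ x y, M (sh (0, 1) x) (sh (0, 1) y) = M x y := fun x y => by
    simpa using key _ _ hb x y
  have kc : ∀ x y, s1 x ≠ s1 y → M x y = 0 := fun x y h => by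
    have := key _ _ hc x y
    rw [sh_zero, sh_zero, mul_comm] at this
    by_contra h0
    exact h (by exact_mod_cast (mul_right_cancel₀ h0 this).symm)
  have kd : ∀ x y, s2 x ≠ s2 y → M x y = 0 := fun x y h => by
    have := key _ _ hd x y
    rw [sh_zero, sh_zero, mul_comm] at this
    by_contra h0
    exact h (by exact_mod_cast (mul_right_cancel₀ h0 this).symm)
  have hs1 : ∀ x y : Ix, b1 x ≠ b1 y → s1 x ≠ s1 y := by
    rintro (_ | x) (_ | y) h <;> simp only [s1] <;> (try split_ifs) <;> simp_all [b1] <;> norm_num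
  have hs2 : ∀ x y : Ix, b2 x ≠ b2 y → s2 x ≠ s2 y := by
    rintro (_ | x) (_ | y) h <;> simp only [s2] <;> (try split_ifs) <;> simp_all [b2] <;> norm_num
  have kadd : ∀ a b, (∀ x y, M (sh a x) (sh a y) = M x y) → (∀ x y, M (sh b x) (sh b y) = M x y) →
      ∀ x y, M (sh (a + b) x) (sh (a + b) y) = M x y := fun a b h1 h2 x y => by
    rw [← sh_sh, ← sh_sh, h1, h2]
  have kall : ∀ a x y, M (sh a x) (sh a y) = M x y := by
    intro a
    have ka2 := kadd _ _ ka ka
    have kb2 := kadd _ _ kb kb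
    rcases all_shifts a with h | h | h | h | h | h | h | h | h <;> rw [h]
    exacts [ka, ka2, kadd _ _ ka ka2, kb, kb2, kadd _ _ ka kb, kadd _ _ ka kb2, kadd _ _ ka2 kb,
      kadd _ _ ka2 kb2]
  have hoff : ∀ x y, x ≠ y → M x y = 0 := by
    intro x y h
    obtain ⟨a, ha | ha⟩ := separate x y h
    · rw [← kall a, kc _ _ (hs1 _ _ ha)]
    · rw [← kall a, kd _ _ (hs2 _ _ ha)]
  have hdiag : ∀ x, M (some x) (some x) = M (some 0) (some 0) := fun x => by
    rw [← kall x (some 0) (some 0)]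
    simp [sh]
  have hM : M = diagonal fun x => M x x := by
    ext x y
    rw [diagonal_apply]
    split_ifs with h
    · rw [h]
    · exact hoff x y h
  have hsq : ∀ x, M x x * M x x = 1 := fun x => by
    have := congrFun (congrFun h1 x) x
    rw [hM, diagonal_transpose, diagonal_mul_diagonal, diagonal_apply_eq, one_apply_eq] at this
    exact this
  rw [hM, det_diagonal, Fintype.prod_option] at h2
  simp only [hdiag, Finset.prod_const, Finset.card_univ, Fintype.card_prod, Fintype.card_fin] at h2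
  have h3 := hsq (some 0)
  have h4 : M none none = M (some 0) (some 0) := by
    linear_combination M (some 0) (some 0) * h2 - M none none * (M (some 0) (some 0) ^ 8 +
      M (some 0) (some 0) ^ 6 + M (some 0) (some 0) ^ 4 + M (some 0) (some 0) ^ 2 + 1) * h3
  have h5 : ∀ x, M x x = M (some 0) (some 0) := fun x => by
    cases x with
    | none => exact h4
    | some x => exact hdiag x
  rcases mul_self_eq_one_iff.1 h3 with h | h
  · left
    rw [hM]
    simp only [h5, h, diagonal_one]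
  · right
    rw [hM]
    simp only [h5, h]
    rw [← diagonal_one, diagonal_neg]

end

end Pool.Agent.H168Z.CV
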